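import Pool.Agent.V1191.GR.Atom

/-!
# MP_be5f19_an, Q1: the negated form holds

There is an invertible mixing probability measure preserving system on a non-atomic space (the
Gaussian shift system whose covariances are the Fourier coefficients of a singular Riesz product)
in which no set `A` of positive measure satisfies `μ (A ∩ Tⁿ A) < μ(A)²` for every `n ≠ 0`.
In fact every measurable `A` with `0 < μ(A) < 1` satisfies the strict reverse inequality
`μ (A ∩ Tⁿ A) > μ(A)²` for infinitely many `n`.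
-/

set_option autoImplicit false

open Filter Topology MeasureTheory

namespace Pool.Agent.Results.MP_be5f19_an.GaussianRieszSystem

open Pool.Agent.V1191.GR

theorem result :
    ∃ (μ : Measure (ℤ → ℝ)) (T : Equiv.Perm (ℤ → ℝ)),
      IsProbabilityMeasure μ ∧ Measurable T ∧ Measurable T.symm ∧ MeasurePreserving T μ μ ∧
      (∀ A : Set (ℤ → ℝ), MeasurableSet A → 0 < μ A →
        ∃ B, B ⊆ A ∧ MeasurableSet B ∧ 0 < μ B ∧ μ B < μ A) ∧
      (∀ A B : Set (ℤ → ℝ), MeasurableSet A → MeasurableSet B →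
        Tendsto (fun n : ℤ => μ (A ∩ (T ^ n) '' B)) cofinite (𝓝 (μ A * μ B))) ∧
      (∀ A : Set (ℤ → ℝ), MeasurableSet A → 0 < μ A →
        ∃ n : ℤ, n ≠ 0 ∧ μ A ^ 2 ≤ μ (A ∩ (T ^ n) '' A)) ∧
      (∀ A : Set (ℤ → ℝ), MeasurableSet A → 0 < μ A → μ A < 1 →
        {n : ℤ | μ A ^ 2 < μ (A ∩ (T ^ n) '' A)}.Infinite) := by
  obtain ⟨μ, hP, hμ⟩ := exists_isG r_even r_psd
  haveI := hP
  have key : ∀ A : Set (ℤ → ℝ), MeasurableSet A → 0 < μ A → μ A < 1 →
      {n : ℤ | μ A ^ 2 < μ (A ∩ (shift ^ n) '' A)}.Infinite := by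
    intro A hA h0 h1
    have e0 : μ.real A ≠ 0 := by
      rw [Measure.real, Ne, ENNReal.toReal_eq_zero_iff]
      exact fun h => h.elim h0.ne' (measure_ne_top μ A)
    have e1 : μ.real A ≠ 1 := by
      rw [Measure.real]
      intro h
      rw [ENNReal.toReal_eq_one_iff] at h
      exact h1.ne h
    refine (infinite_pos hμ hA e0 e1).mono fun n hn => ?_
    simp only [Set.mem_ofPred_eq] at hn ⊢
    rw [Measure.real, Measure.real, ← ENNReal.toReal_pow] at hn
    exact (ENNReal.toReal_lt_toReal (ENNReal.pow_ne_top (measure_ne_top _ _))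
      (measure_ne_top _ _)).mp hn
  refine ⟨μ, shift, hP, shift_meas, shift_symm_meas, ?_, ?_, ?_, ?_, key⟩
  · have := mp_zpow hμ 1
    rwa [zpow_one] at this
  · exact fun A hA h => nonatomic hμ hA h
  · intro A B hA hB
    have h := mixing r_even hμ r_tendsto hA hB
    have h2 := ENNReal.tendsto_ofReal h
    rw [ENNReal.ofReal_mul measureReal_nonneg, Measure.real, Measure.real,
      ENNReal.ofReal_toReal (measure_ne_top _ _), ENNReal.ofReal_toReal (measure_ne_top _ _)] at h2
    refine h2.congr fun n => ?_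
    rw [Measure.real, ENNReal.ofReal_toReal (measure_ne_top _ _)]
  · intro A hA h0
    rcases eq_or_lt_of_le (prob_le_one (μ := μ) (s := A)) with h1 | h1
    · refine ⟨1, one_ne_zero, ?_⟩
      have h2 : μ ((shift ^ (1 : ℤ)) '' A) = 1 := by
        have hmp := mp_zpow hμ (-1)
        have e : ((shift ^ (1 : ℤ) : Equiv.Perm (ℤ → ℝ)) : (ℤ → ℝ) → (ℤ → ℝ)) '' A
            = ((shift ^ (-1 : ℤ) : Equiv.Perm (ℤ → ℝ)) : (ℤ → ℝ) → (ℤ → ℝ)) ⁻¹' A := by
          rw [Equiv.image_eq_preimage_symm, zpow_neg]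
          rfl
        rw [e, hmp.measure_preimage hA.nullMeasurableSet, h1]
      have h3 : μ (Aᶜ ∪ ((shift ^ (1 : ℤ)) '' A)ᶜ) = 0 := by
        have hm : MeasurableSet ((shift ^ (1 : ℤ)) '' A) := by
          rw [Equiv.image_eq_preimage_symm]
          have := shift_zpow_meas (-1)
          rw [zpow_neg] at this
          exact this hA
        refine measure_union_null ?_ ?_
        · rw [prob_compl_eq_zero_iff hA]; exact h1
        · rw [prob_compl_eq_zero_iff hm]; exact h2
      rw [← Set.compl_inter] at h3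
      have h4 : μ (A ∩ (shift ^ (1 : ℤ)) '' A) = 1 := by
        have := measure_of_measure_compl_eq_zero h3
        rw [this, measure_univ]
      rw [h4, h1, one_pow]
    · obtain ⟨n, hn, hn0⟩ := (key A hA h0 h1).exists_notMem_finset {0}
      refine ⟨n, by simpa using hn0, ?_⟩
      exact le_of_lt hn

end Pool.Agent.Results.MP_be5f19_an.GaussianRieszSystem
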